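import Pool.Agent.helper7.UL.Spec

/-!
# Project ul (MP_62ffdf_lc): row DLT
-/

set_option autoImplicit false

namespace Pool.Agent.UL

open Finset

theorem DLT_mem (o h n : ℕ) :
    n ∈ Del o h ↔ n = 2 * (h + 1) * o ∨ ∃ k, k ≤ h ∧ n = h + k * o := by
  unfold Del
  simp only [mem_insert, mem_image, mem_range]
  constructor
  · rintro (h1 | ⟨k, hk, rfl⟩)
    · exact Or.inl h1
    · exact Or.inr ⟨k, by omega, rfl⟩
  · rintro (h1 | ⟨k, hk, rfl⟩)
    · exact Or.inl h1
    · exact Or.inr ⟨k, by omega, rfl⟩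

theorem DLT (h1 : CRD_stmt) : DLT_stmt := by
  intro o W ho hoW hc J hJ I n hn hWn
  obtain ⟨h, rfl⟩ : ∃ h, W = h + 1 := ⟨W - 1, by omega⟩
  have e1 : h + 1 - 1 = h := by omega
  have e2 : (((h + 1 : ℕ) : ℤ) - 1) = (h : ℤ) := by push_cast; ring
  have hu := (h1 o (h + 1) (by omega) (by omega) hc).2
  rw [e2] at hn hu
  rw [e1] at hWn ⊢
  have key : ∀ j' < o, ∀ i' : ℤ, (n : ℤ) = o + (h : ℤ) * j' + o * i' → J = j' ∧ I = i' := by
    intro j' hj' i' hh
    exact hu J hJ j' hj' I i' (by linarith)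
  refine ⟨?_, ?_, ?_⟩
  · rw [DLT_mem]
    constructor
    · rintro (hh | ⟨k, hk, hh⟩)
      · right
        have := key 0 (by omega) (2 * ((h + 1 : ℕ) : ℤ) - 1) (by rw [hh]; push_cast; ring)
        exact this
      · left
        have hk1 : 1 ≤ k := by
          rcases Nat.eq_zero_or_pos k with h0 | h0
          · subst h0
            simp at hh
            omega
          · exact h0
        obtain ⟨a, b⟩ := key 1 (by omega) ((k : ℤ) - 1) (by rw [hh]; push_cast; ring)
        refine ⟨a, ?_, ?_⟩ <;> rw [b]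
        · omega
        · push_cast; omega
    · rintro (⟨rfl, h3, h4⟩ | ⟨rfl, rfl⟩)
      · right
        refine ⟨I.toNat + 1, by omega, ?_⟩
        have : ((I.toNat : ℕ) : ℤ) = I := Int.toNat_of_nonneg h3
        have h5 : (n : ℤ) = ((h + (I.toNat + 1) * o : ℕ) : ℤ) := by
          push_cast
          rw [hn, this]
          push_cast
          ring
        exact_mod_cast h5
      · left
        have h5 : (n : ℤ) = ((2 * (h + 1) * o : ℕ) : ℤ) := by
          rw [hn]
          push_cast
          ring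
        exact_mod_cast h5
  · rintro ⟨a, b⟩ hab ha hb hs
    simp only at hab ha hb hs
    rw [DLT_mem] at ha hb
    rcases ha with ha | ⟨k, hk, ha⟩ <;> rcases hb with hb | ⟨l, hl, hb⟩
    · omega
    · right
      obtain ⟨c, d⟩ := key 1 (by omega) ((l : ℤ) + 2 * ((h + 1 : ℕ) : ℤ) - 1)
        (by rw [← hs, ha, hb]; push_cast; ring)
      exact ⟨c, by rw [d]; omega⟩
    · right
      obtain ⟨c, d⟩ := key 1 (by omega) ((k : ℤ) + 2 * ((h + 1 : ℕ) : ℤ) - 1)
        (by rw [← hs, ha, hb]; push_cast; ring)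
      exact ⟨c, by rw [d]; omega⟩
    · left
      have hkl : k < l := by
        rw [ha, hb] at hab
        by_contra hcon
        have := Nat.mul_le_mul_right o (not_lt.mp hcon)
        omega
      obtain ⟨c, d⟩ := key 2 (by omega) ((k : ℤ) + l - 1)
        (by rw [← hs, ha, hb]; push_cast; ring)
      refine ⟨c, ?_, ?_⟩ <;> rw [d]
      · omega
      · push_cast; omega
  · rintro rfl h3 h4
    refine ⟨(h, h + (I.toNat + 1) * o), ?_, ?_, ?_, ?_⟩
    · have : 0 < (I.toNat + 1) * o := Nat.mul_pos (by omega) (by omega)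
      simp only
      omega
    · rw [DLT_mem]
      exact Or.inr ⟨0, by omega, by simp⟩
    · rw [DLT_mem]
      exact Or.inr ⟨I.toNat + 1, by omega, rfl⟩
    · have : ((I.toNat : ℕ) : ℤ) = I := Int.toNat_of_nonneg h3
      have h5 : ((h + (h + (I.toNat + 1) * o) : ℕ) : ℤ) = (n : ℤ) := by
        push_cast
        rw [hn, this]
        push_cast
        ring
      exact_mod_cast h5

end Pool.Agent.UL
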